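import Pool.Agent.H12.CR.EA

/-! MP_8a02cf_al: an orderable group all of whose right orders are Conrad: its elementary amenable
subgroups (in particular the soluble ones) are locally nilpotent, and all their right orders are
Conrad. -/

namespace Pool.Agent.Results.MP_8a02cf_al.ElemAmenable

open Pool.Agent.H12.CR

universe u

/-- the positive cone of a right order -/
lemma isCone_of_rightOrder {G : Type u} [Group G] {le : G → G → Prop} (h : IsRightOrder le) :
    IsCone {x : G | le 1 x ∧ 1 ≠ x} := by
  refine ⟨?_, ?_, ?_⟩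
  · rintro a b ⟨ha, ha'⟩ ⟨hb, hb'⟩
    have h1 : le b (a * b) := by
      have := h.mul_right _ _ b ha
      rwa [one_mul] at this
    refine ⟨h.trans _ _ _ hb h1, ?_⟩
    intro h2
    rw [← h2] at h1
    exact hb' (h.antisymm _ _ hb h1)
  · rintro ⟨_, h1⟩; exact h1 rfl
  · intro a ha
    rcases h.total 1 a with h1 | h1
    · left; exact ⟨h1, Ne.symm ha⟩
    · right
      have h2 := h.mul_right _ _ a⁻¹ h1
      rw [mul_inv_cancel, one_mul] at h2
      exact ⟨h2, fun h3 => ha (inv_eq_one.1 h3.symm)⟩

lemma lt_iff_cone {G : Type u} [Group G] {le : G → G → Prop} (h : IsRightOrder le) (x y : G) :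
    (le x y ∧ x ≠ y) ↔ y * x⁻¹ ∈ {x : G | le 1 x ∧ 1 ≠ x} := by
  constructor
  · rintro ⟨h1, h2⟩
    have h3 := h.mul_right _ _ x⁻¹ h1
    rw [mul_inv_cancel] at h3
    exact ⟨h3, fun h4 => h2 (mul_inv_eq_one.1 h4.symm).symm⟩
  · rintro ⟨h1, h2⟩
    have h3 := h.mul_right _ _ x h1
    rw [inv_mul_cancel_right, one_mul] at h3
    exact ⟨h3, fun h4 => h2 (by rw [h4, mul_inv_cancel])⟩

/-- the right order of a cone -/
lemma rightOrder_of_isCone {G : Type u} [Group G] {P : Set G} (hP : IsCone P) :
    IsRightOrder (fun x y : G => x = y ∨ y * x⁻¹ ∈ P) := by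
  refine ⟨fun x => Or.inl rfl, ?_, ?_, ?_, ?_⟩
  · rintro x y (h | h) (h' | h')
    · exact h
    · exact h
    · exact h'.symm
    · exfalso
      have h1 := hP.mul h h'
      have h2 : y * x⁻¹ * (x * y⁻¹) = 1 := by group
      rw [h2] at h1
      exact hP.one h1
  · rintro x y z (rfl | h) (rfl | h')
    · left; rfl
    · right; exact h'
    · right; exact h
    · right
      have h1 := hP.mul h' h
      have h2 : z * y⁻¹ * (y * x⁻¹) = z * x⁻¹ := by group
      rwa [h2] at h1
  · intro x y
    by_cases hxy : x = y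
    · left; left; exact hxy
    · rcases hP.tri (y * x⁻¹) (fun h => hxy (mul_inv_eq_one.1 h).symm) with h | h
      · left; right; exact h
      · right; right
        have h2 : (y * x⁻¹)⁻¹ = x * y⁻¹ := by group
        rwa [h2] at h
  · rintro x y z (rfl | h)
    · left; rfl
    · right
      have h2 : y * z * (x * z)⁻¹ = y * x⁻¹ := by group
      rwa [h2]

lemma allConrad_of {G : Type u} [Group G] (h : AllRightOrdersConrad G) : AllConrad G := by
  intro P hP f g hf hgf
  have hlt : ∀ x y : G, y * x⁻¹ ∈ P → (x = y ∨ y * x⁻¹ ∈ P) ∧ x ≠ y := by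
    intro x y hxy
    refine ⟨Or.inr hxy, ?_⟩
    rintro rfl
    rw [mul_inv_cancel] at hxy
    exact hP.one hxy
  obtain ⟨m, hm, h1, h2⟩ := h _ (rightOrder_of_isCone hP) f g
    (hlt 1 f (by simpa using hf)) (hlt f g hgf)
  exact ⟨m, hm, h1.resolve_left h2⟩

lemma allRightOrdersConrad_of {G : Type u} [Group G]
    (h : ∀ f g : G, Group.IsNilpotent (Subgroup.closure {f, g})) : AllRightOrdersConrad G := by
  intro le hle f g hf hfg
  have hP := isCone_of_rightOrder hle
  have hf' : f ∈ {x : G | le 1 x ∧ 1 ≠ x} := hf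
  obtain ⟨m, hm, h1⟩ := conrad_of_nilpotent hP h f g hf' ((lt_iff_cone hle f g).1 hfg)
  exact ⟨m, hm, (lt_iff_cone hle _ _).2 h1⟩

/-- **Main theorem.** Let `G` be an orderable group all of whose right orders are Conrad right
orders, and let `H` be an elementary amenable subgroup of `G` (for instance a soluble subgroup, or
any subgroup at all when `G` is soluble or elementary amenable). Then every finitely generated
subgroup of `H` is nilpotent, and every right order on `H` is a Conrad right order. -/
theorem result {G : Type u} [Group G] (hO : Orderable G) (hC : AllRightOrdersConrad G)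
    (H : Subgroup G) (hH : ElementaryAmenable H) :
    (∀ K : Subgroup H, K.FG → Group.IsNilpotent K) ∧ AllRightOrdersConrad H := by
  classical
  obtain ⟨le, hle, hleft⟩ := hO
  let o : LinearOrder G :=
    { le := le
      le_refl := hle.refl
      le_trans := hle.trans
      le_antisymm := hle.antisymm
      le_total := hle.total
      toDecidableLE := Classical.decRel _ }
  haveI : MulLeftMono G := ⟨fun z x y h => hleft x y z h⟩
  haveI : MulRightMono G := ⟨fun z x y h => hle.mul_right x y z h⟩
  have hAC := allConrad_of hC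
  have hcen : Central G := central_of_allConrad hAC
  have hgd : Gd H := gd_of_ea hAC H hH
  have hnil : ∀ K : Subgroup H, K.FG → Group.IsNilpotent K := by
    intro K hK
    obtain ⟨A, hA, hAf⟩ := (Subgroup.fg_iff _).1 hK
    have h1 := hgd ((↑) '' A : Set G) (hAf.image _) (by
      rintro _ ⟨a, _, rfl⟩
      exact a.2)
    have h2 : Subgroup.closure ((↑) '' A : Set G) = K.map H.subtype := by
      rw [← hA, MonoidHom.map_closure]; rfl
    rw [h2] at h1
    haveI := h1.nilpotent hcen
    exact Group.nilpotent_of_mulEquiv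
      (K.equivMapOfInjective H.subtype (Subgroup.subtype_injective H)).symm
  refine ⟨hnil, allRightOrdersConrad_of (fun f g => hnil _ ?_)⟩
  exact (Subgroup.fg_iff _).2 ⟨{f, g}, rfl, Set.toFinite _⟩

end Pool.Agent.Results.MP_8a02cf_al.ElemAmenable
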